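import Pool.Agent.SXF.Stmts

set_option autoImplicit false

/-! Row POT: in a formula a subadditive function of the gates is bounded by the sum over the leaves. -/

namespace Pool.Agent.SXF.H68

open Pool.Agent.Helper78_ACIT Pool.Agent.WBX

theorem sum_map_getD {α : Type} (f : α → ℕ) (d : α) : ∀ G : List α,
    (G.map f).sum = ∑ j ∈ Finset.range G.length, f (G.getD j d) := by
  intro G
  induction G with
  | nil => simp
  | cons g t ih =>
    rw [List.map_cons, List.sum_cons, ih, List.length_cons, Finset.sum_range_succ']
    simp only [List.getD_cons_succ, List.getD_cons_zero]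
    rw [add_comm]

theorem fanOut_eq (G : List Gate) (a : ℕ) :
    fanOut G a = ∑ j ∈ Finset.range G.length, (refs (G.getD j .zero)).count a := by
  unfold fanOut
  rw [List.count_flatMap, ← sum_map_getD (fun g => (refs g).count a) Gate.zero G]
  rfl

theorem refs_lt {G : List Gate} (hG : WellFormed G) {j : ℕ} {a : ℕ}
    (ha : a ∈ refs (G.getD j .zero)) : a < j := by
  by_cases hj : j < G.length
  · have h1 := hG.2 j (G.getD j .zero) (by
      rw [List.getD_eq_getElem?_getD, List.getElem?_eq_getElem hj]
      rfl)
    generalize G.getD j .zero = g at ha h1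
    cases g with
    | zero => exact absurd ha (List.not_mem_nil)
    | one => exact absurd ha (List.not_mem_nil)
    | var v => exact absurd ha (List.not_mem_nil)
    | add u v =>
      rcases List.mem_cons.1 ha with h | h
      · exact h ▸ h1.1
      · exact (List.mem_singleton.1 h) ▸ h1.2
    | sub u v =>
      rcases List.mem_cons.1 ha with h | h
      · exact h ▸ h1.1
      · exact (List.mem_singleton.1 h) ▸ h1.2
    | mul u v =>
      rcases List.mem_cons.1 ha with h | h
      · exact h ▸ h1.1
      · exact (List.mem_singleton.1 h) ▸ h1.2
  · rw [List.getD_eq_default _ _ (not_lt.1 hj)] at ha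
    exact absurd ha (List.not_mem_nil)

theorem list_sum_count (l : List ℕ) (μ : ℕ → ℕ) (p : ℕ) (hl : ∀ a ∈ l, a < p) :
    (l.map μ).sum = ∑ a ∈ Finset.range p, l.count a * μ a := by
  induction l with
  | nil => simp
  | cons b t ih =>
    rw [List.map_cons, List.sum_cons, ih fun a ha => hl a (List.mem_cons_of_mem _ ha)]
    have h1 : ∀ a ∈ Finset.range p, (b :: t).count a * μ a =
        (if a = b then μ a else 0) + t.count a * μ a := by
      intro a _
      rw [List.count_cons]
      by_cases h : a = b
      · subst h
        rw [beq_self_eq_true, if_pos rfl, if_pos rfl]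
        ring
      · rw [if_neg h, if_neg (by simpa using Ne.symm h)]
        ring
    rw [Finset.sum_congr rfl h1, Finset.sum_add_distrib, Finset.sum_ite_eq',
      if_pos (Finset.mem_range.2 (hl b (List.mem_cons_self)))]

theorem pot : PotStmt := by
  intro G μ hG hex hμ i hi
  by_cases hleaf : refs (G.getD i .zero) = []
  · refine le_trans ?_ (Finset.single_le_sum (f := fun j =>
      if refs (G.getD j .zero) = [] then max 1 (fanOut G j) * μ j else 0)
      (fun j _ => Nat.zero_le _) (Finset.mem_range.2 hi))
    show μ i ≤ if refs (G.getD i .zero) = [] then max 1 (fanOut G i) * μ i else 0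
    rw [if_pos hleaf]
    exact Nat.le_mul_of_pos_left _ (lt_of_lt_of_le Nat.one_pos (le_max_left _ _))
  · have hfan : ∀ j < G.length, refs (G.getD j .zero) ≠ [] → fanOut G j ≤ 1 := by
      intro j hj hr
      have h1 := Finset.sum_eq_zero_iff.1 hex j (Finset.mem_range.2 hj)
      rw [if_neg hr] at h1
      omega
    -- number of uses by the gates up to `i`
    set cnt : ℕ → ℕ := fun a => ∑ j ∈ Finset.range (i + 1), (refs (G.getD j .zero)).count a
      with hcnt
    have hc1 : ∀ a, cnt a ≤ fanOut G a := by
      intro a
      rw [fanOut_eq]
      exact Finset.sum_le_sum_of_subset (Finset.range_subset_range.2 hi)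
    have hc2 : cnt i = 0 := by
      refine Finset.sum_eq_zero fun j hj => ?_
      rw [List.count_eq_zero]
      intro h
      have h1 := refs_lt hG h
      have h2 := Finset.mem_range.1 hj
      omega
    have h1 : ∑ j ∈ Finset.range (i + 1), (if refs (G.getD j .zero) = [] then 0 else μ j) ≤
        ∑ a ∈ Finset.range (i + 1), cnt a * μ a := by
      calc ∑ j ∈ Finset.range (i + 1), (if refs (G.getD j .zero) = [] then 0 else μ j)
          ≤ ∑ j ∈ Finset.range (i + 1), ((refs (G.getD j .zero)).map μ).sum := by
            refine Finset.sum_le_sum fun j hj => ?_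
            split_ifs with h
            · exact Nat.zero_le _
            · exact hμ j (lt_of_lt_of_le (Finset.mem_range.1 hj) hi) h
        _ = ∑ j ∈ Finset.range (i + 1), ∑ a ∈ Finset.range (i + 1),
              (refs (G.getD j .zero)).count a * μ a := by
            refine Finset.sum_congr rfl fun j hj => ?_
            refine list_sum_count _ _ _ fun a ha => ?_
            exact (refs_lt hG ha).trans (Finset.mem_range.1 hj)
        _ = ∑ a ∈ Finset.range (i + 1), cnt a * μ a := by
            rw [Finset.sum_comm]
            refine Finset.sum_congr rfl fun a _ => ?_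
            rw [hcnt, Finset.sum_mul]
    have h2 : ∑ a ∈ Finset.range (i + 1), cnt a * μ a + μ i ≤
        ∑ a ∈ Finset.range (i + 1), (if refs (G.getD a .zero) = [] then 0 else μ a) +
          ∑ a ∈ Finset.range (i + 1),
            (if refs (G.getD a .zero) = [] then max 1 (fanOut G a) * μ a else 0) := by
      rw [← Finset.sum_add_distrib, Finset.sum_range_succ, Finset.sum_range_succ, hc2, zero_mul,
        add_zero, if_neg hleaf, if_neg hleaf, add_zero]
      refine Nat.add_le_add_right (Finset.sum_le_sum fun a ha => ?_) _
      have ha' : a < G.length := (Finset.mem_range.1 ha).trans hi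
      split_ifs with h
      · rw [zero_add]
        exact Nat.mul_le_mul_right _ ((hc1 a).trans (le_max_right _ _))
      · rw [add_zero]
        have h3 := (hc1 a).trans (hfan a ha' h)
        calc cnt a * μ a ≤ 1 * μ a := Nat.mul_le_mul_right _ h3
          _ = μ a := one_mul _
    have h3 : ∑ a ∈ Finset.range (i + 1),
            (if refs (G.getD a .zero) = [] then max 1 (fanOut G a) * μ a else 0) ≤
        ∑ a ∈ Finset.range G.length,
            (if refs (G.getD a .zero) = [] then max 1 (fanOut G a) * μ a else 0) :=
      Finset.sum_le_sum_of_subset (Finset.range_subset_range.2 hi)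
    omega

end Pool.Agent.SXF.H68
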