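import Pool.Agent.Helper68_SXF.POT
import Pool.Agent.Helper12_WBX.Alg

set_option autoImplicit false

/-! Row VAL: the values of the gates of a formula. -/

namespace Pool.Agent.SXF.H68

open Pool.Agent.Helper78_ACIT Pool.Agent.WBX

theorem value_congr {A : Type} [CommRing A] (x : ℕ → A) (l l' : List A) (i : ℕ) (g : Gate)
    (hg : g.RefsBelow i) (h : ∀ a < i, l.getD a 0 = l'.getD a 0) : g.value x l = g.value x l' := by
  cases g with
  | zero => rfl
  | one => rfl
  | var v => rfl
  | add a b =>
    show l.getD a 0 + l.getD b 0 = l'.getD a 0 + l'.getD b 0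
    rw [h a hg.1, h b hg.2]
  | sub a b =>
    show l.getD a 0 - l.getD b 0 = l'.getD a 0 - l'.getD b 0
    rw [h a hg.1, h b hg.2]
  | mul a b =>
    show l.getD a 0 * l.getD b 0 = l'.getD a 0 * l'.getD b 0
    rw [h a hg.1, h b hg.2]

theorem values_append {A : Type} [CommRing A] (x : ℕ → A) (G : List Gate) (g : Gate) :
    values x (G ++ [g]) = values x G ++ [g.value x (values x G)] := by
  unfold values
  rw [List.foldl_append]
  rfl

theorem values_getD {A : Type} [CommRing A] (x : ℕ → A) (G : List Gate)
    (hG : ∀ (i : ℕ) (g : Gate), G[i]? = some g → g.RefsBelow i) :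
    ∀ j < G.length, (values x G).getD j 0 = (G.getD j .zero).value x (values x G) := by
  induction G using List.reverseRecOn with
  | nil => intro j hj; exact absurd hj (Nat.not_lt_zero j)
  | append_singleton G g ih =>
    have hlen := values_length x G
    have hG' : ∀ (i : ℕ) (g : Gate), G[i]? = some g → g.RefsBelow i := by
      intro i g' h
      refine hG i g' ?_
      have hi : i < G.length := by
        by_contra h1
        rw [List.getElem?_eq_none (not_lt.1 h1)] at h
        exact absurd h (by simp)
      rw [List.getElem?_append_left hi, h]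
    have hg : g.RefsBelow G.length := hG G.length g (by
      rw [List.getElem?_append_right le_rfl, Nat.sub_self]
      rfl)
    have hagree : ∀ a < G.length, (values x G).getD a 0 =
        (values x (G ++ [g])).getD a 0 := by
      intro a ha
      rw [values_append, List.getD_append _ _ _ _ (by rw [hlen]; exact ha)]
    intro j hj
    rw [List.length_append, List.length_singleton] at hj
    rcases Nat.lt_succ_iff_lt_or_eq.1 hj with h | h
    · rw [← hagree j h, ih hG' j h, List.getD_append _ _ _ _ h]
      refine value_congr x _ _ j _ ?_ fun a ha => hagree a (ha.trans h)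
      refine hG' j _ ?_
      rw [List.getD_eq_getElem?_getD, List.getElem?_eq_getElem h]
      rfl
    · subst h
      have h1 : (values x (G ++ [g])).getD G.length 0 = g.value x (values x G) := by
        rw [values_append, List.getD_append_right _ _ _ _ (by rw [hlen]), hlen, Nat.sub_self]
        rfl
      have h2 : (G ++ [g]).getD G.length .zero = g := by
        rw [List.getD_append_right _ _ _ _ le_rfl, Nat.sub_self]
        rfl
      rw [h1, h2]
      exact value_congr x _ _ G.length g hg hagree

theorem clog_sub {M u v w : ℕ} (hM : 1 ≤ M) (h : w + 1 ≤ (u + 1) * (v + 1)) :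
    Nat.clog (M + 1) (w + 1) ≤ Nat.clog (M + 1) (u + 1) + Nat.clog (M + 1) (v + 1) := by
  refine Nat.clog_le_of_le_pow ?_
  rw [pow_add]
  exact h.trans (Nat.mul_le_mul (Nat.le_pow_clog (by omega) _) (Nat.le_pow_clog (by omega) _))

theorem sum_fan (G : List Gate) (hG : WellFormed G) :
    ∑ j ∈ Finset.range G.length, (if refs (G.getD j .zero) = [] then max 1 (fanOut G j) else 0) ≤
      2 * G.length := by
  have h1 : ∑ j ∈ Finset.range G.length, fanOut G j =
      ∑ j ∈ Finset.range G.length, (refs (G.getD j .zero)).length := by
    have h2 : ∀ j ∈ Finset.range G.length, (refs (G.getD j .zero)).length =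
        ∑ a ∈ Finset.range G.length, (refs (G.getD j .zero)).count a := by
      intro j hj
      have h3 := list_sum_count (refs (G.getD j .zero)) (fun _ => 1) G.length
        (fun a ha => (refs_lt hG ha).trans (Finset.mem_range.1 hj))
      simp only [mul_one] at h3
      rw [← h3]
      simp
    rw [Finset.sum_congr rfl h2, Finset.sum_comm]
    exact Finset.sum_congr rfl fun a _ => fanOut_eq G a
  have h3 : ∑ j ∈ Finset.range G.length,
      ((if refs (G.getD j .zero) = [] then max 1 (fanOut G j) else 0) +
        (refs (G.getD j .zero)).length) ≤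
      ∑ j ∈ Finset.range G.length, (2 + fanOut G j) := by
    refine Finset.sum_le_sum fun j _ => ?_
    have h4 : (refs (G.getD j .zero)).length ≤ 2 := by
      cases G.getD j .zero <;> simp [refs]
    split_ifs with h
    · rw [h, List.length_nil]
      omega
    · omega
  rw [Finset.sum_add_distrib, Finset.sum_add_distrib, h1, Finset.sum_const, Finset.card_range,
    smul_eq_mul] at h3
  omega

theorem val : ValStmt := by
  intro G M x hG hex hM hx a ha
  have hv := values_getD x G hG.2
  have hlen := values_length x G
  set μ : ℕ → ℕ := fun j => Nat.clog (M + 1) (((values x G).getD j 0).natAbs + 1) with hμ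
  obtain ⟨i, hi, hia⟩ := List.mem_iff_getElem.1 ha
  have hi' : i < G.length := hlen ▸ hi
  have hgi : (values x G).getD i 0 = a := by
    rw [List.getD_eq_getElem?_getD, List.getElem?_eq_getElem hi, ← hia]
    rfl
  have hsub : ∀ j < G.length, refs (G.getD j .zero) ≠ [] →
      μ j ≤ ((refs (G.getD j .zero)).map μ).sum := by
    intro j hj hr
    have h1 := hv j hj
    generalize G.getD j .zero = g at hr h1
    show Nat.clog (M + 1) (((values x G).getD j 0).natAbs + 1) ≤ _
    rw [h1]
    cases g with
    | zero => exact absurd rfl hr
    | one => exact absurd rfl hr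
    | var v => exact absurd rfl hr
    | add u v =>
      show Nat.clog (M + 1) (((values x G).getD u 0 + (values x G).getD v 0).natAbs + 1) ≤
        μ u + (μ v + 0)
      refine clog_sub hM ?_
      have := Int.natAbs_add_le ((values x G).getD u 0) ((values x G).getD v 0)
      nlinarith [Nat.zero_le (((values x G).getD u 0).natAbs * ((values x G).getD v 0).natAbs)]
    | sub u v =>
      show Nat.clog (M + 1) (((values x G).getD u 0 - (values x G).getD v 0).natAbs + 1) ≤
        μ u + (μ v + 0)
      refine clog_sub hM ?_
      have := Int.natAbs_sub_le ((values x G).getD u 0) ((values x G).getD v 0)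
      nlinarith [Nat.zero_le (((values x G).getD u 0).natAbs * ((values x G).getD v 0).natAbs)]
    | mul u v =>
      show Nat.clog (M + 1) (((values x G).getD u 0 * (values x G).getD v 0).natAbs + 1) ≤
        μ u + (μ v + 0)
      refine clog_sub hM ?_
      rw [Int.natAbs_mul]
      have h9 : (((values x G).getD u 0).natAbs + 1) * (((values x G).getD v 0).natAbs + 1) =
          ((values x G).getD u 0).natAbs * ((values x G).getD v 0).natAbs + 1 +
            (((values x G).getD u 0).natAbs + ((values x G).getD v 0).natAbs) := by ring
      rw [h9]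
      exact Nat.le_add_right _ _
  have hleaf : ∀ j < G.length, refs (G.getD j .zero) = [] → μ j ≤ 1 := by
    intro j hj hr
    have h1 := hv j hj
    generalize G.getD j .zero = g at hr h1
    show Nat.clog (M + 1) (((values x G).getD j 0).natAbs + 1) ≤ 1
    rw [h1]
    refine Nat.clog_le_of_le_pow ?_
    rw [pow_one]
    cases g with
    | zero =>
      show (0 : ℤ).natAbs + 1 ≤ M + 1
      simp
    | one =>
      show (1 : ℤ).natAbs + 1 ≤ M + 1
      simpa using hM
    | var v => exact Nat.succ_le_succ (hx v)
    | add u v => exact absurd hr (by simp [refs])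
    | sub u v => exact absurd hr (by simp [refs])
    | mul u v => exact absurd hr (by simp [refs])
  have h5 := pot G μ hG hex hsub i hi'
  have h6 : ∑ j ∈ Finset.range G.length,
      (if refs (G.getD j .zero) = [] then max 1 (fanOut G j) * μ j else 0) ≤
      ∑ j ∈ Finset.range G.length,
        (if refs (G.getD j .zero) = [] then max 1 (fanOut G j) else 0) := by
    refine Finset.sum_le_sum fun j hj => ?_
    split_ifs with h
    · exact (Nat.mul_le_mul_left _ (hleaf j (Finset.mem_range.1 hj) h)).trans (mul_one _).le
    · exact le_rfl
  have h7 := h5.trans (h6.trans (sum_fan G hG))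
  have h8 : a.natAbs + 1 ≤ (M + 1) ^ μ i := by
    rw [← hgi]
    exact Nat.le_pow_clog (by omega) _
  calc a.natAbs ≤ a.natAbs + 1 := Nat.le_succ _
    _ ≤ (M + 1) ^ μ i := h8
    _ ≤ (M + 1) ^ (2 * G.length) := Nat.pow_le_pow_right (by omega) h7

end Pool.Agent.SXF.H68
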